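import Pool.Agent.H185C.Acyclic

/-!
Cyclic edge connectivity of cubic graphs all of whose automorphism orbits are dense (every vertex is
within a bounded distance of every orbit) in terms of the girth.
-/

set_option autoImplicit false

namespace Pool.Agent.Q164.HD
open Finset Pool.Agent.H160R2.HF Pool.Agent.H160R2.HF.OrGraph Pool.Agent.H185C

universe u v

variable {V : Type u} {E : Type v} [Fintype V] [Fintype E] [DecidableEq V] [DecidableEq E]

/-- `(σ, τ)` is an automorphism of the multigraph: the ends of `τ e` are the images of the ends of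
`e`. -/
def IsAut (G : OrGraph V E) (σ : Equiv.Perm V) (τ : Equiv.Perm E) : Prop :=
  ∀ e, (G.t (τ e) = σ (G.t e) ∧ G.h (τ e) = σ (G.h e)) ∨
    (G.t (τ e) = σ (G.h e) ∧ G.h (τ e) = σ (G.t e))

/-- the image of a vertex set -/
def mv (σ : Equiv.Perm V) (X : Finset V) : Finset V := X.map σ.toEmbedding

theorem mem_mv (σ : Equiv.Perm V) (X : Finset V) (v : V) : σ v ∈ mv σ X ↔ v ∈ X := by
  unfold mv
  simp

theorem card_mv (σ : Equiv.Perm V) (X : Finset V) : (mv σ X).card = X.card := by
  unfold mv; simp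

theorem compl_mv (σ : Equiv.Perm V) (X : Finset V) : (mv σ X)ᶜ = mv σ Xᶜ := by
  ext v
  obtain ⟨w, rfl⟩ := σ.surjective v
  rw [mem_compl, mem_mv, mem_mv, mem_compl]

theorem cut_mv (G : OrGraph V E) {σ : Equiv.Perm V} {τ : Equiv.Perm E} (h : IsAut G σ τ)
    (X : Finset V) : G.cut (mv σ X) = (G.cut X).map τ.toEmbedding := by
  ext e
  obtain ⟨e, rfl⟩ := τ.surjective e
  have h1 : τ e ∈ (G.cut X).map τ.toEmbedding ↔ e ∈ G.cut X := by simp
  rw [h1]
  unfold cut
  rw [mem_filter, mem_filter]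
  rcases h e with ⟨h2, h3⟩ | ⟨h2, h3⟩
  · rw [h2, h3, mem_mv, mem_mv]; simp
  · rw [h2, h3, mem_mv, mem_mv]; simp [iff_comm]

theorem cyc_mv (G : OrGraph V E) {σ : Equiv.Perm V} {τ : Equiv.Perm E} (h : IsAut G σ τ)
    (X : Finset V) (hX : G.HasCycleIn X) : G.HasCycleIn (mv σ X) := by
  obtain ⟨C, hC1, hC2, hC3⟩ := hX
  refine ⟨C.map τ.toEmbedding, by simpa using hC1, ?_, ?_⟩
  · intro e he
    obtain ⟨e, rfl⟩ := τ.surjective e
    have he' : e ∈ C := by simpa using he
    obtain ⟨a, b⟩ := hC2 e he'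
    rcases h e with ⟨h2, h3⟩ | ⟨h2, h3⟩
    · rw [h2, h3, mem_mv, mem_mv]; exact ⟨a, b⟩
    · rw [h2, h3, mem_mv, mem_mv]; exact ⟨b, a⟩
  · intro v
    obtain ⟨w, rfl⟩ := σ.surjective v
    have : G.deg (C.map τ.toEmbedding) (σ w) = G.deg C w := by
      unfold deg
      simp only [card_filter, sum_map, ← sum_add_distrib]
      refine sum_congr rfl fun e _ => ?_
      rcases h e with ⟨h2, h3⟩ | ⟨h2, h3⟩
      · simp only [Equiv.coe_toEmbedding, h2, h3, σ.injective.eq_iff]
      · simp only [Equiv.coe_toEmbedding, h2, h3, σ.injective.eq_iff]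
        exact add_comm _ _
    rw [this]; exact hC3 w

theorem cyc_mono (G : OrGraph V E) {X Y : Finset V} (h : X ⊆ Y) (hX : G.HasCycleIn X) :
    G.HasCycleIn Y := by
  obtain ⟨C, h1, h2, h3⟩ := hX
  exact ⟨C, h1, fun e he => ⟨h (h2 e he).1, h (h2 e he).2⟩, h3⟩

theorem cut_sum (G : OrGraph V E) (X : Finset V) :
    (G.cut X).card = ∑ e : E, if (G.t e ∈ X ↔ G.h e ∈ X) then 0 else 1 := by
  unfold cut
  rw [card_filter]
  refine sum_congr rfl fun e _ => ?_
  by_cases h : (G.t e ∈ X ↔ G.h e ∈ X)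
  · rw [if_pos h, if_neg (not_not.2 h)]
  · rw [if_neg h, if_pos h]

theorem submod (G : OrGraph V E) (A B : Finset V) :
    (G.cut (A ∩ B)).card + (G.cut (A ∪ B)).card ≤ (G.cut A).card + (G.cut B).card := by
  simp only [cut_sum, ← sum_add_distrib]
  refine sum_le_sum fun e _ => ?_
  by_cases h1 : G.t e ∈ A <;> by_cases h2 : G.t e ∈ B <;> by_cases h3 : G.h e ∈ A <;>
    by_cases h4 : G.h e ∈ B <;> simp [h1, h2, h3, h4]

theorem posimod (G : OrGraph V E) (A B : Finset V) :
    (G.cut (A \ B)).card + (G.cut (B \ A)).card ≤ (G.cut A).card + (G.cut B).card := by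
  simp only [cut_sum, ← sum_add_distrib]
  refine sum_le_sum fun e _ => ?_
  by_cases h1 : G.t e ∈ A <;> by_cases h2 : G.t e ∈ B <;> by_cases h3 : G.h e ∈ A <;>
    by_cases h4 : G.h e ∈ B <;> simp [h1, h2, h3, h4]

theorem cut_compl (G : OrGraph V E) (A : Finset V) : (G.cut Aᶜ).card = (G.cut A).card := by
  simp only [cut_sum, mem_compl, not_iff_not]

theorem deg_mono (G : OrGraph V E) (C : Finset E) (v : V) : G.deg C v ≤ G.deg univ v := by
  unfold deg
  exact Nat.add_le_add (card_le_card (filter_subset_filter _ (subset_univ _)))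
    (card_le_card (filter_subset_filter _ (subset_univ _)))

/-- a set with a circuit has at least as many vertices as the girth -/
theorem girth_le (G : OrGraph V E) (hc : G.Cubic) {g : ℕ}
    (hg : ∀ C : Finset E, C.Nonempty → (∀ v, Even (G.deg C v)) → g ≤ C.card)
    (X : Finset V) (hX : G.HasCycleIn X) : g ≤ X.card := by
  obtain ⟨C, h1, h2, h3⟩ := hX
  have h4 := hg C h1 h3
  have h5 := G.handshake C X
  have h6 : C.filter (fun e => G.t e ∈ X ∧ G.h e ∈ X) = C := by
    apply filter_true_of_mem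
    exact h2
  rw [h6] at h5
  have h7 : ∑ v ∈ X, G.deg C v ≤ ∑ v ∈ X, 2 := by
    refine sum_le_sum fun v _ => ?_
    have a := deg_mono G C v
    rw [hc v] at a
    obtain ⟨k, hk⟩ := h3 v
    omega
  rw [sum_const, smul_eq_mul] at h7
  omega

/-! ### Balls -/

/-- the ball around `z` -/
noncomputable def ball (G : OrGraph V E) (r : ℕ) (z : V) : Finset V := by
  classical
  exact univ.filter (fun y => Near G r z y)

theorem mem_ball (G : OrGraph V E) (r : ℕ) (z y : V) : y ∈ ball G r z ↔ Near G r z y := by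
  classical
  unfold ball
  simp

theorem near_refl (G : OrGraph V E) (r : ℕ) (z : V) : Near G r z z := by
  induction r with
  | zero => exact rfl
  | succ r ih => exact Or.inl ih

theorem ball_card (G : OrGraph V E) (hc : G.Cubic) (r : ℕ) (z : V) :
    (ball G r z).card ≤ 4 ^ r := by
  classical
  induction r with
  | zero =>
    rw [pow_zero, card_le_one]
    intro a ha b hb
    rw [mem_ball] at ha hb
    have ha : z = a := ha
    have hb : z = b := hb
    rw [← ha, ← hb]
  | succ r ih =>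
    have hsub : ball G (r + 1) z ⊆ ball G r z ∪ (ball G r z).biUnion (fun w =>
        (univ.filter (fun e => G.t e = w)).image G.h ∪
          (univ.filter (fun e => G.h e = w)).image G.t) := by
      intro y hy
      rw [mem_ball] at hy
      rcases hy with hy | ⟨e, ⟨h1, h2⟩ | ⟨h1, h2⟩⟩
      · exact mem_union_left _ ((mem_ball _ _ _ _).2 hy)
      · refine mem_union_right _ (mem_biUnion.2 ⟨G.t e, (mem_ball _ _ _ _).2 h1, ?_⟩)
        exact mem_union_left _ (mem_image.2 ⟨e, by simp, h2⟩)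
      · refine mem_union_right _ (mem_biUnion.2 ⟨G.h e, (mem_ball _ _ _ _).2 h1, ?_⟩)
        exact mem_union_right _ (mem_image.2 ⟨e, by simp, h2⟩)
    have h3 : ((ball G r z).biUnion (fun w =>
        (univ.filter (fun e => G.t e = w)).image G.h ∪
          (univ.filter (fun e => G.h e = w)).image G.t)).card ≤ (ball G r z).card * 3 := by
      apply card_biUnion_le_card_mul
      intro w _
      refine (card_union_le _ _).trans ?_
      refine (Nat.add_le_add card_image_le card_image_le).trans ?_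
      exact le_of_eq (hc w)
    have h4 := card_le_card hsub
    have h5 := card_union_le (ball G r z) ((ball G r z).biUnion (fun w =>
        (univ.filter (fun e => G.t e = w)).image G.h ∪
          (univ.filter (fun e => G.h e = w)).image G.t))
    rw [pow_succ]
    omega

/-! ### Boundary vertices -/

/-- the vertices of `X` with an edge leaving `X` -/
def bdy (G : OrGraph V E) (X : Finset V) : Finset V :=
  X.filter (fun v => ∃ e ∈ G.cut X, G.t e = v ∨ G.h e = v)

theorem bdy_card (G : OrGraph V E) (X : Finset V) : (bdy G X).card ≤ (G.cut X).card := by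
  have : bdy G X ⊆ (G.cut X).image (fun e => if G.t e ∈ X then G.t e else G.h e) := by
    intro v hv
    obtain ⟨hv, e, he, h | h⟩ := mem_filter.1 hv
    · refine mem_image.2 ⟨e, he, ?_⟩
      rw [if_pos (by rw [h]; exact hv), h]
    · refine mem_image.2 ⟨e, he, ?_⟩
      have h2 := (mem_filter.1 he).2
      rw [h] at h2
      have h3 : G.t e ∉ X := fun c => h2 ⟨fun _ => hv, fun _ => c⟩
      rw [if_neg h3, h]
  exact (card_le_card this).trans card_image_le

theorem near_bdy (G : OrGraph V E) (X : Finset V) (r : ℕ) (u y : V) (hu : u ∉ X) (hy : y ∈ X)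
    (h : Near G r u y) : ∃ z ∈ bdy G X, Near G r z y := by
  induction r generalizing y with
  | zero =>
    have h : u = y := h
    exact absurd (h ▸ hy) hu
  | succ r ih =>
    rcases h with h | ⟨e, ⟨h1, h2⟩ | ⟨h1, h2⟩⟩
    · obtain ⟨z, hz, h⟩ := ih y hy h
      exact ⟨z, hz, Or.inl h⟩
    · by_cases ht : G.t e ∈ X
      · obtain ⟨z, hz, h⟩ := ih _ ht h1
        exact ⟨z, hz, Or.inr ⟨e, Or.inl ⟨h, h2⟩⟩⟩
      · refine ⟨y, mem_filter.2 ⟨hy, e, ?_, Or.inr h2⟩, near_refl G _ y⟩
        refine mem_filter.2 ⟨mem_univ _, ?_⟩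
        rw [h2]
        exact fun c => ht (c.2 hy)
    · by_cases ht : G.h e ∈ X
      · obtain ⟨z, hz, h⟩ := ih _ ht h1
        exact ⟨z, hz, Or.inr ⟨e, Or.inr ⟨h, h2⟩⟩⟩
      · refine ⟨y, mem_filter.2 ⟨hy, e, ?_, Or.inl h2⟩, near_refl G _ y⟩
        refine mem_filter.2 ⟨mem_univ _, ?_⟩
        rw [h2]
        exact fun c => ht (c.1 hy)

theorem bdy_mv (G : OrGraph V E) {σ : Equiv.Perm V} {τ : Equiv.Perm E} (h : IsAut G σ τ)
    (X : Finset V) (x : V) (hx : x ∈ bdy G X) : σ x ∈ bdy G (mv σ X) := by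
  obtain ⟨hx, e, he, h1⟩ := mem_filter.1 hx
  refine mem_filter.2 ⟨(mem_mv _ _ _).2 hx, τ e, ?_, ?_⟩
  · rw [cut_mv G h]
    simpa using he
  · rcases h e with ⟨h2, h3⟩ | ⟨h2, h3⟩
    · rw [h2, h3, σ.injective.eq_iff, σ.injective.eq_iff]; exact h1
    · rw [h2, h3, σ.injective.eq_iff, σ.injective.eq_iff]; exact h1.symm

/-- **Cyclic connectivity from the girth.** If every vertex is within distance `ρ` of every orbit of
the automorphism group and every circuit has at least `4 ^ (ρ + 1) * k` edges, then every edge cut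
with a circuit on both sides has at least `k` edges. -/
theorem cycConn (G : OrGraph V E) (hc : G.Cubic) (ρ k : ℕ)
    (hconn : ∀ x y, ∃ r, Near G r x y)
    (hd : ∀ x y, ∃ σ τ, IsAut G σ τ ∧ Near G ρ (σ x) y)
    (hg : ∀ C : Finset E, C.Nonempty → (∀ v, Even (G.deg C v)) → 4 ^ (ρ + 1) * k ≤ C.card) :
    CycConn G k := by
  classical
  by_contra hcon
  unfold CycConn at hcon
  push Not at hcon
  obtain ⟨X0, hX0, hX0', hlt0⟩ := hcon
  set S : Finset (Finset V) := univ.filter (fun X => G.HasCycleIn X ∧ G.HasCycleIn Xᶜ) with hS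
  have hmemS : ∀ X, X ∈ S ↔ G.HasCycleIn X ∧ G.HasCycleIn Xᶜ := by
    intro X; rw [hS, mem_filter]; simp
  obtain ⟨X1, hX1, hmin1⟩ := exists_min_image S (fun X => (G.cut X).card)
    ⟨X0, (hmemS _).2 ⟨hX0, hX0'⟩⟩
  set c := (G.cut X1).card with hcdef
  have hck : c < k := lt_of_le_of_lt (hmin1 X0 ((hmemS _).2 ⟨hX0, hX0'⟩)) hlt0
  obtain ⟨X, hX, hmin2⟩ := exists_min_image (S.filter (fun X => (G.cut X).card = c))
    (fun X => X.card) ⟨X1, mem_filter.2 ⟨hX1, rfl⟩⟩
  obtain ⟨hXS, hXc⟩ := mem_filter.1 hX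
  obtain ⟨hXa, hXb⟩ := (hmemS _).1 hXS
  -- every set with circuits on both sides has a cut of at least `c` edges, and more if smaller
  have hge : ∀ Y, G.HasCycleIn Y → G.HasCycleIn Yᶜ → c ≤ (G.cut Y).card :=
    fun Y h1 h2 => hmin1 Y ((hmemS _).2 ⟨h1, h2⟩)
  have hgt : ∀ Y, G.HasCycleIn Y → G.HasCycleIn Yᶜ → Y.card < X.card → c + 1 ≤ (G.cut Y).card := by
    intro Y h1 h2 h3
    rcases (hge Y h1 h2).lt_or_eq with h | h
    · exact h
    · have := hmin2 Y (mem_filter.2 ⟨(hmemS _).2 ⟨h1, h2⟩, h.symm⟩)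
      omega
  have hgX : ∀ Y, G.HasCycleIn Y → 4 ^ (ρ + 1) * k ≤ Y.card := fun Y hY => girth_le G hc hg Y hY
  have hpow : 4 * k ≤ 4 ^ (ρ + 1) * k := by
    rw [pow_succ]
    have : 1 ≤ 4 ^ ρ := Nat.one_le_pow _ _ (by norm_num)
    nlinarith
  have hXcard : 4 * k ≤ X.card := hpow.trans (hgX X hXa)
  -- translates are equal or disjoint
  have hblock : ∀ σ τ, IsAut G σ τ → (mv σ X ∩ X).Nonempty → mv σ X = X := by
    intro σ τ hστ hne
    by_contra hneq
    set B := mv σ X with hB
    have hBa : G.HasCycleIn B := cyc_mv G hστ X hXa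
    have hBb : G.HasCycleIn Bᶜ := by rw [hB, compl_mv]; exact cyc_mv G hστ _ hXb
    have hBc : (G.cut B).card = c := by rw [hB, cut_mv G hστ, card_map, hXc]
    have hBcard : B.card = X.card := card_mv σ X
    have h1 : (X ∩ B).card + (X \ B).card = X.card := card_inter_add_card_sdiff X B
    have h2 : (B ∩ X).card + (B \ X).card = B.card := card_inter_add_card_sdiff B X
    have h3 : (B ∩ X).card = (X ∩ B).card := by rw [inter_comm]
    have hpos : 0 < (X ∩ B).card := by
      rw [card_pos, inter_comm]; exact hne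
    have hsd : (X \ B).Nonempty := by
      rw [← card_pos]
      by_contra h0
      have h4 : (B \ X).card = 0 := by omega
      have h5 : (X \ B).card = 0 := by omega
      rw [card_eq_zero, sdiff_eq_empty_iff_subset] at h4 h5
      exact hneq (subset_antisymm h4 h5)
    have hsd' : (B \ X).Nonempty := by
      rw [← card_pos]
      have := card_pos.2 hsd
      omega
    have hsub := submod G X B
    have hpsm := posimod G X B
    rw [hXc, hBc] at hsub hpsm
    by_cases hcyc : G.HasCycleIn (X ∩ B)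
    · have h4 : c + 1 ≤ (G.cut (X ∩ B)).card := by
        apply hgt _ hcyc
        · exact cyc_mono G (by
            intro v hv; rw [mem_compl] at hv ⊢; exact fun h => hv (mem_inter.1 h).1) hXb
        · have := card_pos.2 hsd
          omega
      have h5 : ¬ G.HasCycleIn (X ∪ B)ᶜ := by
        intro h6
        have := hge (X ∪ B) (cyc_mono G subset_union_left hXa) h6
        omega
      have h6 : X.card ≤ Xᶜ.card := by
        have h7 : Xᶜ ∈ S.filter (fun X => (G.cut X).card = c) := by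
          refine mem_filter.2 ⟨(hmemS _).2 ⟨hXb, by rw [compl_compl]; exact hXa⟩, ?_⟩
          rw [cut_compl, hXc]
        exact hmin2 _ h7
      have h7 : (X ∩ B).card ≤ (X ∪ B)ᶜ.card := by
        have h8 : (X ∪ B)ᶜ = Xᶜ \ (B \ X) := by
          ext v
          simp only [mem_compl, mem_union, mem_sdiff]
          tauto
        have h9 : (B \ X) ⊆ Xᶜ := by
          intro v hv; rw [mem_compl]; exact (mem_sdiff.1 hv).2
        rw [h8, card_sdiff_of_subset h9]
        have h10 := card_le_card h9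
        omega
      have h8 := hgX _ hcyc
      have h9 : (X ∪ B)ᶜ.Nonempty := by
        rw [← card_pos]; omega
      have h10 := acyclic_le G hc _ h9 h5
      rw [cut_compl] at h10
      omega
    · have h4 := acyclic_le G hc _ (card_pos.1 hpos) hcyc
      have h5 : ¬ G.HasCycleIn (X \ B) ∨ ¬ G.HasCycleIn (B \ X) := by
        by_contra h6
        push Not at h6
        have h7 : c + 1 ≤ (G.cut (X \ B)).card := by
          apply hgt _ h6.1
          · exact cyc_mono G (by
              intro v hv; rw [mem_compl] at hv ⊢; exact fun h => hv (mem_sdiff.1 h).1) hXb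
          · omega
        have h8 : c + 1 ≤ (G.cut (B \ X)).card := by
          apply hgt _ h6.2
          · exact cyc_mono G (by
              intro v hv; rw [mem_compl] at hv ⊢; exact fun h => hv (mem_sdiff.1 h).1) hBb
          · omega
        omega
      have h6 : (X \ B).card + 2 ≤ 2 * c := by
        rcases h5 with h5 | h5
        · have := acyclic_le G hc _ hsd h5
          omega
        · have := acyclic_le G hc _ hsd' h5
          omega
      omega
  -- a boundary vertex
  have hne : X.Nonempty := card_pos.1 (by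
    obtain ⟨C, hC1, hC2, -⟩ := hXa
    obtain ⟨e, he⟩ := hC1
    exact card_pos.2 ⟨_, (hC2 e he).1⟩)
  have hne' : Xᶜ.Nonempty := by
    obtain ⟨C, hC1, hC2, -⟩ := hXb
    obtain ⟨e, he⟩ := hC1
    exact ⟨_, (hC2 e he).1⟩
  obtain ⟨y0, hy0⟩ := hne
  obtain ⟨u0, hu0⟩ := hne'
  obtain ⟨r0, hr0⟩ := hconn u0 y0
  obtain ⟨x0, hx0, -⟩ := near_bdy G X r0 u0 y0 (mem_compl.1 hu0) hy0 hr0
  have hx0X : x0 ∈ X := (mem_filter.1 hx0).1
  have hcov : X ⊆ (bdy G X).biUnion (fun z => ball G ρ z) := by
    intro y hy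
    obtain ⟨σ, τ, hστ, hn⟩ := hd x0 y
    rw [mem_biUnion]
    by_cases hin : σ x0 ∈ X
    · have h1 : mv σ X = X := hblock σ τ hστ ⟨σ x0, mem_inter.2 ⟨(mem_mv _ _ _).2 hx0X, hin⟩⟩
      have h2 := bdy_mv G hστ X x0 hx0
      rw [h1] at h2
      exact ⟨_, h2, (mem_ball _ _ _ _).2 hn⟩
    · obtain ⟨z, hz, h⟩ := near_bdy G X ρ _ y hin hy hn
      exact ⟨z, hz, (mem_ball _ _ _ _).2 h⟩
  have h1 := card_le_card hcov
  have h2 : ((bdy G X).biUnion (fun z => ball G ρ z)).card ≤ (bdy G X).card * 4 ^ ρ :=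
    card_biUnion_le_card_mul _ _ _ (fun z _ => ball_card G hc ρ z)
  have h3 := bdy_card G X
  rw [hXc] at h3
  have h4 := hgX X hXa
  have h5 : (bdy G X).card * 4 ^ ρ ≤ c * 4 ^ ρ := Nat.mul_le_mul_right _ h3
  have h6 : 1 ≤ 4 ^ ρ := Nat.one_le_pow _ _ (by norm_num)
  rw [pow_succ] at h4
  have h7 : 4 ^ ρ * 4 * k ≤ c * 4 ^ ρ := h4.trans (h1.trans (h2.trans h5))
  have h8 : 0 < 4 ^ ρ := h6
  nlinarith

end Pool.Agent.Q164.HD
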